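import Pool.Agent.N422.NWS.Stm
import Pool.Agent.N422.NW.JEN

/-! Project NWS, package MULTI: all sites, from GEN, MPOL and ABS. -/

set_option autoImplicit false

open Finset

namespace Pool.Agent.U623.NWS

open Pool.Agent.N422.NW Pool.Agent.N422.NWS

lemma lam_Ta {N k : ℕ} (γ : St N k) (i : Fin N) (c : Option (Fin k)) :
    lam (fun a => Ta γ a) i c = if c = γ i then 1 else 0 := by
  cases c with
  | some a =>
    simp only [lam, Ta, mem_filter, mem_univ, true_and]
    by_cases h : γ i = some a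
    · simp [h]
    · simp [h, Ne.symm h]
  | none =>
    simp only [lam, Ta, mem_filter, mem_univ, true_and]
    cases h : γ i with
    | none => simp
    | some b =>
      have : (univ.filter fun a : Fin k => some b = some a) = {b} := by
        ext a
        simp [eq_comm]
      rw [this]
      simp

lemma prod_lam_Ta {N k : ℕ} (γ γ' : St N k) :
    ∏ i, lam (fun a => Ta γ a) i (γ' i) = if γ' = γ then 1 else 0 := by
  simp only [lam_Ta]
  by_cases h : γ' = γ
  · simp [h]
  · rw [if_neg h]
    have : ∃ i, γ' i ≠ γ i := by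
      by_contra hc
      push Not at hc
      exact h (funext hc)
    obtain ⟨i, hi⟩ := this
    exact Finset.prod_eq_zero (mem_univ i) (by simp [hi])

lemma KX_id {N k : ℕ} (K : Finset (Fin N) → Finset (Fin N) → ℂ)
    (hK : ∀ T T', K T T' = if T' = T then 1 else 0) (γ γ' : St N k) :
    KX K γ γ' = if γ' = γ then 1 else 0 := by
  unfold KX
  rw [Finset.sum_eq_single (fun a => Ta γ a)]
  · rw [prod_lam_Ta]
    simp only [hK, if_true, Finset.prod_const_one, one_mul]
    split_ifs <;> simp
  · intro ω _ hω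
    have : ∃ a, ω a ≠ Ta γ a := by
      by_contra hc
      push Not at hc
      exact hω (funext hc)
    obtain ⟨a, ha⟩ := this
    rw [Finset.prod_eq_zero (mem_univ a) (by rw [hK, if_neg ha]), zero_mul]
  · intro h
    exact absurd (mem_univ _) h

lemma muU_nonneg {N k : ℕ} (u : Fin N → ℝ) (hu : ∀ i, 0 ≤ u i ∧ 2 * k * u i ≤ 1) (γ : St N k) :
    0 ≤ muU u γ := by
  refine Finset.prod_nonneg fun i _ => ?_
  obtain ⟨h1, h2⟩ := hu i
  cases γ i with
  | some a => exact h1
  | none =>
    show 0 ≤ 1 - (k : ℝ) * u i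
    nlinarith

theorem t_MULTI (hG : S_GEN) (hP : S_MPOL) (hA : S_ABS) : S_MULTI := by
  intro N k n u ν t Z K Kr φ LB f hu ht hZ hf hLev hKid hKpol hcirc hLB
  have hs0 : (0 : ℝ) < Real.exp (-t) := Real.exp_pos _
  have hs1 : Real.exp (-t) < 1 := by
    rw [Real.exp_lt_one_iff]
    linarith
  have hlog : Set.EqOn
      (fun w => fun γ : St N k => Real.log (∏ a, φ (psi (Real.exp (-t)) w) (Ta γ a)))
      (fun w => fun γ : St N k => ∑ a, Real.log (φ (psi (Real.exp (-t)) w) (Ta γ a)))
      (Metric.sphere (0 : ℂ) |1|) := by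
    intro w hw
    have hw1 : ‖w‖ = 1 := by simpa using hw
    have hn : ‖psi (Real.exp (-t)) w‖ = 1 := JEN_norm hs0 hs1 hw1
    funext γ
    exact Real.log_prod fun a _ => ((hcirc _ hn).2.1 (Ta γ a)).ne'
  refine hG N k n (muU u) f t (fun z => KX (K z)) (fun z γ => ∏ a, φ z (Ta γ a))
    (fun γ => Z ^ k * Real.exp (∑ i, (20 * k ^ 2 * u i ^ 2 +
      if γ i = none then 0 else 2 * k * u i)) - 1)
    (fun γ => ∑ a, LB (Ta γ a)) (muU_nonneg u hu) hf ht ?_ ?_ ?_ ?_
  · intro γ γ'
    exact KX_id _ hKid γ γ'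
  · intro γ
    exact hP N k n ν f hLev K hKpol γ
  · intro z hz
    obtain ⟨h1, h2, h3⟩ := hcirc z hz
    refine ⟨fun γ => Finset.prod_pos fun a _ => h2 _, fun γ' => ?_⟩
    have hKe : K z = fun T T' => (Kr z T T' : ℂ) := by
      funext T T'
      exact (h1 T T').1
    have := hA N k u Z (Kr z) (φ z) hu hZ (fun T T' => (h1 T T').2) (fun T => (h2 T).le) h3 γ'
    rw [hKe]
    calc _ ≤ _ := this
      _ = _ := by ring
  · intro γ
    have hci : CircleIntegrable
        (fun w => ∑ a, Real.log (φ (psi (Real.exp (-t)) w) (Ta γ a))) 0 1 := by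
      have := CircleIntegrable.sum (s := (univ : Finset (Fin k)))
        (f := fun a w => Real.log (φ (psi (Real.exp (-t)) w) (Ta γ a)))
        (c := (0 : ℂ)) (R := 1) (fun a _ => (hLB (Ta γ a)).1)
      simpa [Finset.sum_fn] using this
    have heq : Set.EqOn (fun w => ∑ a, Real.log (φ (psi (Real.exp (-t)) w) (Ta γ a)))
        (fun w => Real.log (∏ a, φ (psi (Real.exp (-t)) w) (Ta γ a)))
        (Metric.sphere (0 : ℂ) |1|) := by
      intro w hw
      exact (congrFun (hlog hw) γ).symm
    constructor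
    · exact (circleIntegrable_congr heq).1 hci
    · rw [← Real.circleAverage_congr_sphere heq]
      rw [Real.circleAverage_fun_sum fun a _ => (hLB (Ta γ a)).1]
      exact Finset.sum_le_sum fun a _ => (hLB (Ta γ a)).2

end Pool.Agent.U623.NWS
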